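import Mathlib

/-!
# Units and the Jacobson radical of a noncommutative ring
-/

set_option autoImplicit false

namespace Pool.Agent.X279

theorem isUnit_one_add_of_mem_jacobson {R : Type*} [Ring R] {x : R} (hx : x ∈ Ring.jacobson R) :
    IsUnit (1 + x) := by
  rw [← Ideal.jacobson_bot] at hx
  obtain ⟨s, hs⟩ := Ideal.exists_mul_add_sub_mem_of_mem_jacobson x hx
  have hs1 : s * (x + 1) = 1 := by
    have := (Submodule.mem_bot R).1 hs
    exact sub_eq_zero.1 this
  have hmem : s - 1 ∈ Ideal.jacobson (⊥ : Ideal R) := by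
    have h1 : s - 1 = -(s * x) := by
      rw [mul_add, mul_one] at hs1
      rw [← hs1]; abel
    rw [h1]
    exact neg_mem (Ideal.mul_mem_left _ s hx)
  obtain ⟨t, ht⟩ := Ideal.exists_mul_add_sub_mem_of_mem_jacobson (s - 1) hmem
  have ht1 : t * s = 1 := by
    have := sub_eq_zero.1 ((Submodule.mem_bot R).1 ht)
    rwa [sub_add_cancel] at this
  have htx : t = x + 1 := by
    calc t = t * (s * (x + 1)) := by rw [hs1, mul_one]
      _ = x + 1 := by rw [← mul_assoc, ht1, one_mul]
  rw [add_comm]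
  exact ⟨⟨x + 1, s, by rw [← htx, ht1], hs1⟩, rfl⟩

end Pool.Agent.X279
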