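import Mathlib

/-!
# Skew Laurent series rings

For a ring `A` and an automorphism `φ` of `A`, the ring `A((x, φ))` of the formal series
`∑_{i ≥ n} aᵢ xⁱ` (`n ∈ ℤ`), with multiplication determined by `x a = φ(a) x`.
-/

set_option autoImplicit false

namespace Pool.Agent.X279

open Finset

variable {A : Type*} [Ring A]

/-- The skew Laurent series `∑ aᵢ xⁱ` over `A`: the coefficients `aᵢ` vanish for all sufficiently
negative `i`. -/
@[ext] structure SkewLaurent (φ : RingAut A) where
  /-- the coefficient of `xⁱ` -/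
  coeff : ℤ → A
  /-- the order is bounded below -/
  bdd : ∃ N : ℤ, ∀ i < N, coeff i = 0

namespace SkewLaurent

variable {φ : RingAut A}

theorem coeff_injective : Function.Injective (coeff : SkewLaurent φ → ℤ → A) :=
  fun _ _ h => SkewLaurent.ext h

instance : Zero (SkewLaurent φ) := ⟨⟨fun _ => 0, 0, fun _ _ => rfl⟩⟩

instance : Add (SkewLaurent φ) := ⟨fun f g => ⟨fun i => f.coeff i + g.coeff i, by
  obtain ⟨M, hM⟩ := f.bdd
  obtain ⟨N, hN⟩ := g.bdd
  refine ⟨min M N, fun i hi => ?_⟩
  rw [hM i (lt_of_lt_of_le hi (min_le_left _ _)), hN i (lt_of_lt_of_le hi (min_le_right _ _)),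
    add_zero]⟩⟩

instance : Neg (SkewLaurent φ) := ⟨fun f => ⟨fun i => -f.coeff i, by
  obtain ⟨M, hM⟩ := f.bdd
  exact ⟨M, fun i hi => by rw [hM i hi, neg_zero]⟩⟩⟩

instance : Sub (SkewLaurent φ) := ⟨fun f g => ⟨fun i => f.coeff i - g.coeff i, by
  obtain ⟨M, hM⟩ := f.bdd
  obtain ⟨N, hN⟩ := g.bdd
  refine ⟨min M N, fun i hi => ?_⟩
  rw [hM i (lt_of_lt_of_le hi (min_le_left _ _)), hN i (lt_of_lt_of_le hi (min_le_right _ _)),
    sub_zero]⟩⟩

instance : SMul ℕ (SkewLaurent φ) := ⟨fun n f => ⟨fun i => n • f.coeff i, by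
  obtain ⟨M, hM⟩ := f.bdd
  exact ⟨M, fun i hi => by rw [hM i hi, smul_zero]⟩⟩⟩

instance : SMul ℤ (SkewLaurent φ) := ⟨fun n f => ⟨fun i => n • f.coeff i, by
  obtain ⟨M, hM⟩ := f.bdd
  exact ⟨M, fun i hi => by rw [hM i hi, smul_zero]⟩⟩⟩

instance : AddCommGroup (SkewLaurent φ) :=
  Function.Injective.addCommGroup coeff coeff_injective rfl (fun _ _ => rfl) (fun _ => rfl)
    (fun _ _ => rfl) (fun _ _ => rfl) (fun _ _ => rfl)

@[simp] theorem coeff_zero (i : ℤ) : (0 : SkewLaurent φ).coeff i = 0 := rfl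
@[simp] theorem coeff_add (f g : SkewLaurent φ) (i : ℤ) :
    (f + g).coeff i = f.coeff i + g.coeff i := rfl
@[simp] theorem coeff_neg (f : SkewLaurent φ) (i : ℤ) : (-f).coeff i = -f.coeff i := rfl
@[simp] theorem coeff_sub (f g : SkewLaurent φ) (i : ℤ) :
    (f - g).coeff i = f.coeff i - g.coeff i := rfl

/-- The terms of the product have indices in a finite interval. -/
theorem term_support {f g : ℤ → A} {a b : ℤ} (hf : ∀ i < a, f i = 0) (hg : ∀ i < b, g i = 0)
    (n : ℤ) : (Function.support fun i => f i * (φ ^ i) (g (n - i))) ⊆ (Icc a (n - b) : Finset ℤ) := by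
  intro i hi
  rw [Function.mem_support] at hi
  rw [coe_Icc, Set.mem_Icc]
  constructor
  · by_contra h
    exact hi (by rw [hf i (not_le.1 h), zero_mul])
  · by_contra h
    exact hi (by rw [hg (n - i) (by omega), map_zero, mul_zero])

/-- The multiplication: `(∑ fᵢ xⁱ) (∑ gⱼ xʲ) = ∑ₙ (∑ᵢ fᵢ φⁱ(g_{n-i})) xⁿ`. -/
noncomputable instance : Mul (SkewLaurent φ) := ⟨fun f g =>
  ⟨fun n => ∑ᶠ i : ℤ, f.coeff i * (φ ^ i) (g.coeff (n - i)), by
    obtain ⟨a, ha⟩ := f.bdd
    obtain ⟨b, hb⟩ := g.bdd
    refine ⟨a + b, fun n hn => ?_⟩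
    rw [finsum_eq_sum_of_support_subset _ (term_support ha hb n), Icc_eq_empty (by omega),
      sum_empty]⟩⟩

/-- The unit `1 = 1 x⁰`. -/
instance : One (SkewLaurent φ) :=
  ⟨⟨fun i => if i = 0 then 1 else 0, 0, fun i hi => if_neg (by omega)⟩⟩

theorem coeff_mul (f g : SkewLaurent φ) (n : ℤ) :
    (f * g).coeff n = ∑ᶠ i : ℤ, f.coeff i * (φ ^ i) (g.coeff (n - i)) := rfl

theorem coeff_one (n : ℤ) : (1 : SkewLaurent φ).coeff n = if n = 0 then 1 else 0 := rfl

theorem coeff_mul_eq_sum (f g : SkewLaurent φ) {a b : ℤ} (hf : ∀ i < a, f.coeff i = 0)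
    (hg : ∀ i < b, g.coeff i = 0) (n : ℤ) :
    (f * g).coeff n = ∑ i ∈ Icc a (n - b), f.coeff i * (φ ^ i) (g.coeff (n - i)) :=
  finsum_eq_sum_of_support_subset _ (term_support hf hg n)

theorem hasFiniteSupport (f g : SkewLaurent φ) (n : ℤ) :
    Function.HasFiniteSupport fun i => f.coeff i * (φ ^ i) (g.coeff (n - i)) := by
  obtain ⟨a, ha⟩ := f.bdd
  obtain ⟨b, hb⟩ := g.bdd
  exact (Finset.finite_toSet _).subset (term_support ha hb n)

theorem mul_assoc' (f g h : SkewLaurent φ) : f * g * h = f * (g * h) := by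
  ext n
  rw [coeff_mul, coeff_mul]
  obtain ⟨a, ha⟩ := f.bdd
  obtain ⟨b, hb⟩ := g.bdd
  obtain ⟨c, hc⟩ := h.bdd
  set F : ℤ × ℤ → A := fun p =>
    f.coeff p.1 * (φ ^ p.1) (g.coeff p.2) * (φ ^ (p.1 + p.2)) (h.coeff (n - p.1 - p.2)) with hF
  have hFfin : Function.HasFiniteSupport F := by
    refine ((Finset.Icc a (n - b - c) ×ˢ Finset.Icc b (n - a - c)).finite_toSet).subset ?_
    rintro ⟨i, j⟩ hij
    rw [Function.mem_support] at hij
    have h1 : a ≤ i := by
      by_contra h
      exact hij (by simp only [hF]; rw [ha i (not_le.1 h), zero_mul, zero_mul])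
    have h2 : b ≤ j := by
      by_contra h
      exact hij (by simp only [hF]; rw [hb j (not_le.1 h), map_zero, mul_zero, zero_mul])
    have h3 : c ≤ n - i - j := by
      by_contra h
      exact hij (by simp only [hF]; rw [hc _ (not_le.1 h), map_zero, mul_zero])
    rw [Finset.mem_coe, Finset.mem_product, Finset.mem_Icc, Finset.mem_Icc]
    constructor <;> constructor <;> simp only <;> omega
  let e : ℤ × ℤ ≃ ℤ × ℤ :=
    { toFun := fun p => (p.2, p.1 - p.2)
      invFun := fun p => (p.1 + p.2, p.1)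
      left_inv := fun p => by ext <;> simp
      right_inv := fun p => by ext <;> simp }
  have hL : ∑ᶠ k : ℤ, (f * g).coeff k * (φ ^ k) (h.coeff (n - k)) = ∑ᶠ p : ℤ × ℤ, F p := by
    rw [← finsum_comp_equiv e, finsum_curry (fun p => F (e p))]
    · refine finsum_congr fun k => ?_
      rw [coeff_mul, finsum_mul' _ _ (hasFiniteSupport f g k)]
      refine finsum_congr fun i => ?_
      change _ = f.coeff i * (φ ^ i) (g.coeff (k - i)) * (φ ^ (i + (k - i))) (h.coeff (n - i - (k - i)))
      rw [show i + (k - i) = k by ring, show n - i - (k - i) = n - k by ring]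
    · exact hFfin.comp_of_injective e.injective
  have hR : ∑ᶠ i : ℤ, f.coeff i * (φ ^ i) ((g * h).coeff (n - i)) = ∑ᶠ p : ℤ × ℤ, F p := by
    rw [finsum_curry F hFfin]
    refine finsum_congr fun i => ?_
    have hs := hasFiniteSupport g h (n - i)
    have h1 : (φ ^ i) ((g * h).coeff (n - i))
        = ∑ᶠ j : ℤ, (φ ^ i) (g.coeff j * (φ ^ j) (h.coeff (n - i - j))) :=
      ((φ ^ i : RingAut A) : A →+ A).map_finsum hs
    have hs' : Function.HasFiniteSupport
        fun j : ℤ => (φ ^ i) (g.coeff j * (φ ^ j) (h.coeff (n - i - j))) := by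
      refine hs.subset fun j hj => ?_
      rw [Function.mem_support] at hj ⊢
      exact fun h0 => hj (by rw [h0, map_zero])
    rw [h1, mul_finsum' _ _ hs']
    refine finsum_congr fun j => ?_
    simp only [hF]
    rw [map_mul, zpow_add, RingAut.mul_apply, mul_assoc]
  rw [hL, hR]

theorem zero_mul' (f : SkewLaurent φ) : 0 * f = 0 := by
  ext n
  rw [coeff_mul]
  simp

theorem mul_zero' (f : SkewLaurent φ) : f * 0 = 0 := by
  ext n
  rw [coeff_mul]
  simp

theorem one_mul' (f : SkewLaurent φ) : 1 * f = f := by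
  ext n
  rw [coeff_mul, finsum_eq_single _ 0]
  · simp [coeff_one]
  · intro i hi
    rw [coeff_one, if_neg hi, zero_mul]

theorem mul_one' (f : SkewLaurent φ) : f * 1 = f := by
  ext n
  rw [coeff_mul, finsum_eq_single _ n]
  · simp [coeff_one]
  · intro i hi
    rw [coeff_one, if_neg (by omega), map_zero, mul_zero]

theorem mul_add' (f g h : SkewLaurent φ) : f * (g + h) = f * g + f * h := by
  ext n
  rw [coeff_add, coeff_mul, coeff_mul, coeff_mul,
    ← finsum_add_distrib (hasFiniteSupport f g n) (hasFiniteSupport f h n)]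
  refine finsum_congr fun i => ?_
  rw [coeff_add, map_add, mul_add]

theorem add_mul' (f g h : SkewLaurent φ) : (f + g) * h = f * h + g * h := by
  ext n
  rw [coeff_add, coeff_mul, coeff_mul, coeff_mul,
    ← finsum_add_distrib (hasFiniteSupport f h n) (hasFiniteSupport g h n)]
  refine finsum_congr fun i => ?_
  rw [coeff_add, add_mul]

noncomputable instance : Ring (SkewLaurent φ) :=
  { (inferInstance : AddCommGroup (SkewLaurent φ)) with
    mul := (· * ·)
    one := 1
    mul_assoc := mul_assoc'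
    zero_mul := zero_mul'
    mul_zero := mul_zero'
    one_mul := one_mul'
    mul_one := mul_one'
    left_distrib := mul_add'
    right_distrib := add_mul' }

/-- The monomial `a xⁿ`. -/
def single (n : ℤ) (a : A) : SkewLaurent φ :=
  ⟨fun i => if i = n then a else 0, n, fun i hi => if_neg (by omega)⟩

theorem coeff_single (n : ℤ) (a : A) (i : ℤ) :
    (single n a : SkewLaurent φ).coeff i = if i = n then a else 0 := rfl

@[simp] theorem coeff_single_self (n : ℤ) (a : A) :
    (single n a : SkewLaurent φ).coeff n = a := if_pos rfl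

theorem coeff_single_ne {n i : ℤ} (h : i ≠ n) (a : A) :
    (single n a : SkewLaurent φ).coeff i = 0 := if_neg h

theorem coeff_single_mul (n : ℤ) (a : A) (f : SkewLaurent φ) (m : ℤ) :
    (single n a * f).coeff m = a * (φ ^ n) (f.coeff (m - n)) := by
  rw [coeff_mul, finsum_eq_single _ n]
  · rw [coeff_single_self]
  · intro i hi
    rw [coeff_single_ne hi, zero_mul]

theorem coeff_mul_single (f : SkewLaurent φ) (n : ℤ) (a : A) (m : ℤ) :
    (f * single n a).coeff m = f.coeff (m - n) * (φ ^ (m - n)) a := by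
  rw [coeff_mul, finsum_eq_single _ (m - n)]
  · rw [show m - (m - n) = n by ring, coeff_single_self]
  · intro i hi
    rw [coeff_single_ne (by omega), map_zero, mul_zero]

theorem single_mul_single (n m : ℤ) (a b : A) :
    (single n a * single m b : SkewLaurent φ) = single (n + m) (a * (φ ^ n) b) := by
  ext i
  rw [coeff_single_mul, coeff_single, coeff_single]
  by_cases h : i = n + m
  · rw [if_pos h, if_pos (by omega)]
  · rw [if_neg h, if_neg (by omega), map_zero, mul_zero]

theorem one_eq_single : (1 : SkewLaurent φ) = single 0 1 := rfl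

theorem single_add (n : ℤ) (a b : A) : (single n (a + b) : SkewLaurent φ) = single n a + single n b := by
  ext i
  simp only [coeff_add, coeff_single]
  split_ifs <;> simp

/-- The variable and its inverse. -/
noncomputable def X : (SkewLaurent φ)ˣ where
  val := single 1 1
  inv := single (-1) 1
  val_inv := by rw [single_mul_single, one_eq_single, map_one, mul_one]; rfl
  inv_val := by rw [single_mul_single, one_eq_single, map_one, mul_one]; rfl

/-- The constants. -/
noncomputable def C : A →+* SkewLaurent φ where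
  toFun := single 0
  map_zero' := by ext i; simp [coeff_single]
  map_one' := rfl
  map_add' := single_add 0
  map_mul' a b := by rw [single_mul_single]; simp

/-- The defining relation `x a = φ(a) x`. -/
theorem X_mul_C (a : A) : (X (φ := φ)).val * C (φ := φ) a = C (φ := φ) (φ a) * (X (φ := φ)).val := by
  change (single 1 1 * single 0 a : SkewLaurent φ) = single 0 (φ a) * single 1 1
  rw [single_mul_single, single_mul_single]
  simp

/-- The coefficients of the left inverse of a power series. -/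
noncomputable def invSeq (φ : RingAut A) (f : ℤ → A) (v : A) : ℕ → A
  | n => ((if n = 0 then 1 else 0) -
      ∑ i : Fin n, invSeq φ f v i * (φ ^ ((i : ℕ) : ℤ)) (f ((n : ℤ) - (i : ℕ)))) * (φ ^ (n : ℤ)) v
termination_by n => n
decreasing_by exact i.2

theorem invSeq_eq (φ : RingAut A) (f : ℤ → A) (v : A) (n : ℕ) :
    invSeq φ f v n = ((if n = 0 then 1 else 0) -
      ∑ i ∈ Finset.range n, invSeq φ f v i * (φ ^ (i : ℤ)) (f ((n : ℤ) - i))) * (φ ^ (n : ℤ)) v := by
  rw [invSeq, Finset.sum_range (fun i => invSeq φ f v i * (φ ^ (i : ℤ)) (f ((n : ℤ) - i)))]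

/-- Power series with invertible constant term have a left inverse of the same kind. -/
theorem exists_left_inv (f : SkewLaurent φ) (hf : ∀ n < 0, f.coeff n = 0)
    (h0 : IsUnit (f.coeff 0)) :
    ∃ h : SkewLaurent φ, (∀ n < 0, h.coeff n = 0) ∧ IsUnit (h.coeff 0) ∧ h * f = 1 := by
  obtain ⟨u, hu⟩ := h0
  set s : ℕ → A := invSeq φ f.coeff (↑u⁻¹ : A) with hs
  refine ⟨⟨fun n => if 0 ≤ n then s n.toNat else 0, 0, fun i hi => if_neg (by omega)⟩, ?_, ?_, ?_⟩
  · intro n hn
    exact if_neg (by omega)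
  · change IsUnit (if (0 : ℤ) ≤ 0 then s (0 : ℤ).toNat else 0)
    rw [if_pos le_rfl]
    change IsUnit (s 0)
    rw [hs, invSeq_eq]
    simp
  · ext n
    set h : SkewLaurent φ := ⟨fun n => if 0 ≤ n then s n.toNat else 0, 0,
      fun i hi => if_neg (by omega)⟩ with hh
    have hc : ∀ i : ℕ, h.coeff (i : ℤ) = s i := by
      intro i
      change (if (0 : ℤ) ≤ (i : ℤ) then s (i : ℤ).toNat else 0) = s i
      rw [if_pos (by omega), Int.toNat_natCast]
    have hneg : ∀ i < 0, h.coeff i = 0 := fun i hi => if_neg (by omega)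
    rw [coeff_mul_eq_sum h f hneg hf n, sub_zero, coeff_one]
    by_cases hn : n < 0
    · rw [Finset.Icc_eq_empty (by omega), Finset.sum_empty, if_neg (by omega)]
    · obtain ⟨m, rfl⟩ : ∃ m : ℕ, n = m := ⟨n.toNat, by omega⟩
      have himg : (Finset.Icc (0 : ℤ) m) = (Finset.range (m + 1)).map Nat.castEmbedding := by
        ext i
        simp only [Finset.mem_Icc, Finset.mem_map, Finset.mem_range, Nat.castEmbedding_apply]
        constructor
        · intro hi
          exact ⟨i.toNat, by omega, by omega⟩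
        · rintro ⟨k, hk, rfl⟩
          omega
      rw [himg, Finset.sum_map]
      simp only [Nat.castEmbedding_apply, hc]
      rw [Finset.sum_range_succ, sub_self]
      have hsm : s m * (φ ^ (m : ℤ)) (f.coeff 0) = (if m = 0 then 1 else 0) -
          ∑ i ∈ Finset.range m, s i * (φ ^ (i : ℤ)) (f.coeff ((m : ℤ) - i)) := by
        rw [hs, invSeq_eq, mul_assoc, ← map_mul, ← hu, Units.inv_mul, map_one, mul_one]
      rw [hsm]
      simp

/-- Power series with invertible constant term are units of the skew Laurent series ring. -/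
theorem isUnit_of_coeff_zero (f : SkewLaurent φ) (hf : ∀ n < 0, f.coeff n = 0)
    (h0 : IsUnit (f.coeff 0)) : IsUnit f := by
  obtain ⟨h, hh, hh0, hhf⟩ := exists_left_inv f hf h0
  obtain ⟨k, -, -, hkh⟩ := exists_left_inv h hh hh0
  have : k = f := by
    calc k = k * (h * f) := by rw [hhf, mul_one]
      _ = f := by rw [← mul_assoc, hkh, one_mul]
  rw [this] at hkh
  exact ⟨⟨f, h, hkh, hhf⟩, rfl⟩

end SkewLaurent

end Pool.Agent.X279
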