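import Pool.Agent.Helper884.Golod
import Pool.Agent.Helper824.GS

/-!
# A Golod-Shafarevich algebra all of whose matrices over the augmentation ideal are nilpotent
-/

set_option autoImplicit false

namespace Pool.Agent.X279.GolodAll

open Pool.Agent.Helper884.Golod MonoidAlgebra Module

section Abstract

variable {K T : Type*} [Field K] [Ring T] [Algebra K T] {D R : ℕ → Submodule K T}

/-- Golod-Shafarevich with a variable number of relations. -/
theorem Jd_lt' (hDf : ∀ n, finrank K (D n) = 2 ^ n) (hD : ∀ m n, D m * D n = D (m+n))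
    (hD0 : D 0 = 1) (hR : ∀ n, R n ≤ D n) (r : ℕ → ℕ) (hRr : ∀ n, finrank K (R n) ≤ r n)
    (t : ℝ) (ht : 0 < t)
    (hsum : ∀ n, 1 + ∑ i ∈ Finset.range n, (r (i + 1) : ℝ) * t ^ (i + 1) ≤ 2 * t) (n : ℕ) :
    Jd D R n < D n := by
  classical
  have hDF : ∀ n, Module.Finite K (D n) := fun n => by
    apply Module.finite_of_finrank_pos
    rw [hDf]; positivity
  have hJle : ∀ n, finrank K (Jd D R n) ≤ 2 ^ n := fun n => by
    have := hDF n
    rw [← hDf n]
    exact Submodule.finrank_mono (Jd_le hD hR n)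
  set a : ℕ → ℝ := fun n => (2:ℝ) ^ n - finrank K (Jd D R n) with ha
  have key := Pool.Agent.Helper824.GS.growth a (fun i => (r i : ℝ)) 2 t ht
    (fun i => Nat.cast_nonneg _) (by
      have h0 : Jd D R 0 = ⊥ := rfl
      have h1 : finrank K (Jd D R 0) = 0 := by rw [h0]; exact finrank_bot K T
      simp only [ha, h1]; norm_num) (by
    intro n
    have h1 := finrank_Jd_succ_le hDF hD hD0 hR n
    have h2 : ∑ i ∈ Finset.range (n+1),
        (finrank K (D i) - finrank K (Jd D R i)) * finrank K (R (n+1-i)) ≤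
        ∑ i ∈ Finset.range (n+1), (2^i - finrank K (Jd D R i)) * r (n+1-i) := by
      apply Finset.sum_le_sum
      intro i _
      rw [hDf i]
      exact Nat.mul_le_mul_left _ (hRr _)
    have h4 : (finrank K (Jd D R (n+1)) : ℝ) ≤ finrank K (Jd D R n) * 2 +
        ∑ i ∈ Finset.range (n+1), ((2:ℝ)^i - finrank K (Jd D R i)) * r (n+1-i) := by
      have h5 := h1.trans (Nat.add_le_add_left h2 _)
      have h6 : ((finrank K (Jd D R (n+1)) : ℕ) : ℝ) ≤ ((finrank K (Jd D R n) * finrank K (D 1) +
        ∑ i ∈ Finset.range (n+1), (2^i - finrank K (Jd D R i)) * r (n+1-i) : ℕ) : ℝ) := by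
        exact_mod_cast h5
      rw [hDf 1] at h6
      push_cast at h6
      convert h6 using 2
      apply Finset.sum_congr rfl
      intro i _
      rw [Nat.cast_sub (hJle i)]
      push_cast
      ring
    have h7 : ∑ i ∈ Finset.range (n+1), ((2:ℝ)^i - finrank K (Jd D R i)) * r (n+1-i) =
      ∑ i ∈ Finset.range (n+1), a (n - i) * (r (i+1) : ℝ) := by
      rw [← Finset.sum_range_reflect]
      apply Finset.sum_congr rfl
      intro i hi
      rw [Finset.mem_range] at hi
      have e1 : n + 1 - 1 - i = n - i := by omega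
      have e2 : n + 1 - (n - i) = i + 1 := by omega
      simp only [ha]
      rw [e1, e2]
    rw [h7] at h4
    simp only [ha] at h4 ⊢
    rw [pow_succ]
    linarith) hsum n
  have hlt : finrank K (Jd D R n) < 2 ^ n := by
    have h1 := key.1
    simp only [ha] at h1
    have : ((finrank K (Jd D R n) : ℕ) : ℝ) < ((2 ^ n : ℕ) : ℝ) := by push_cast; linarith
    exact_mod_cast this
  refine lt_of_le_of_ne (Jd_le hD hR n) ?_
  intro h
  rw [h, hDf n] at hlt
  exact lt_irrefl _ hlt

end Abstract

section Core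

variable {K : Type} [Field K]

/-- The degree from which `m²` relations per degree are harmless. -/
theorem exists_start (m : ℕ) : ∃ N : ℕ, ∀ j, N ≤ j → ((m * m : ℕ) : ℝ) * (6/7) ^ j ≤ 1/16 := by
  have h : Filter.Tendsto (fun n : ℕ => ((m * m : ℕ) : ℝ) * (6/7 : ℝ)^n) Filter.atTop
      (nhds (((m * m : ℕ) : ℝ) * 0)) :=
    (tendsto_pow_atTop_nhds_zero_of_lt_one (by norm_num) (by norm_num)).const_mul _
  rw [mul_zero] at h
  obtain ⟨N, hN⟩ := Filter.eventually_atTop.1 (h.eventually (gt_mem_nhds (show (0:ℝ) < 1/16 by norm_num)))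
  exact ⟨N, fun j hj => (hN j hj).le⟩

/-- Golod's construction for matrices of all sizes. -/
theorem golod_all [Countable K] :
    ∃ I : Ideal (T K), I.IsTwoSided ∧ Infinite (T K ⧸ I) ∧ (∀ f ∈ I, f.coeff 1 = 0) ∧
      ∀ (m : ℕ) (M : Matrix (Fin m) (Fin m) (T K)), (∀ a b, M a b ∈ Ge K 1) →
        ∃ e : ℕ, ∀ a b, (M ^ e) a b ∈ I := by
  classical
  choose st hst using exists_start
  have : Countable (T K) := (coeffEquiv (R := K) (M := FreeMonoid (Fin 2))).countable_iff.mpr
    inferInstance
  -- enumeration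
  let X := Σ m : ℕ, {M : Matrix (Fin m) (Fin m) (T K) // ∀ a b, M a b ∈ Ge K 1}
  have : Nonempty X := ⟨⟨0, 0, fun a b => by simp⟩⟩
  have hcm : ∀ m : ℕ, Countable (Matrix (Fin m) (Fin m) (T K)) := fun m =>
    (inferInstance : Countable (Fin m → Fin m → T K))
  obtain ⟨W, hW⟩ := exists_surjective_nat X
  obtain ⟨es, es0, es1⟩ : ∃ es : ℕ → ℕ, es 0 = st (W 0).1 + 1 ∧
      ∀ k, es (k+1) = max (es k + 1) (max (md ((W k).2.1 ^ (es k))) (st (W (k+1)).1)) :=
    ⟨fun k => Nat.rec (st (W 0).1 + 1)
      (fun k e => max (e+1) (max (md ((W k).2.1 ^ e)) (st (W (k+1)).1))) k, rfl, fun _ => rfl⟩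
  have es_mono : StrictMono es := strictMono_nat_of_lt_succ (fun k => by
    rw [es1]; exact lt_of_lt_of_le (Nat.lt_succ_self _) (le_max_left _ _))
  have es_st : ∀ k, st (W k).1 ≤ es k := by
    intro k
    cases k with
    | zero => rw [es0]; omega
    | succ k => rw [es1]; exact le_max_of_le_right (le_max_right _ _)
  obtain ⟨idx, hidx⟩ : ∃ idx : ℕ → ℕ, ∀ k j, es k ≤ j → j < es (k+1) → idx j = k := by
    refine ⟨fun j => Nat.findGreatest (fun k => es k ≤ j) j, ?_⟩
    intro k j h1 h2
    have hkj : k ≤ j := (es_mono.le_apply).trans h1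
    apply le_antisymm
    · by_contra h3
      push Not at h3
      have h4 := Nat.findGreatest_spec (P := fun k => es k ≤ j) (n := j) (m := k) hkj h1
      have h5 : es (k+1) ≤ es (Nat.findGreatest (fun k => es k ≤ j) j) := es_mono.monotone h3
      omega
    · exact Nat.le_findGreatest (P := fun k => es k ≤ j) hkj h1
  have hblock : ∀ j, es 0 ≤ j → es (idx j) ≤ j := by
    intro j hj
    have hex : ∃ k, es k ≤ j ∧ j < es (k+1) := by
      have hb : ∃ k, j < es (k + 1) := ⟨j, lt_of_lt_of_le (Nat.lt_succ_self j) es_mono.le_apply⟩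
      refine ⟨Nat.find hb, ?_, Nat.find_spec hb⟩
      rcases Nat.eq_zero_or_pos (Nat.find hb) with h | h
      · rw [h]; exact hj
      · obtain ⟨l, hl⟩ : ∃ l, Nat.find hb = l + 1 := ⟨Nat.find hb - 1, by omega⟩
        have := Nat.find_min hb (m := l) (by omega)
        rw [hl]
        omega
    obtain ⟨k, h1, h2⟩ := hex
    rw [hidx k j h1 h2]
    exact h1
  let R : ℕ → Submodule K (T K) := fun j => if j < es 0 then ⊥ else
    Submodule.span K (Set.range (fun ab : Fin (W (idx j)).1 × Fin (W (idx j)).1 =>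
      comp j (((W (idx j)).2.1 ^ (es (idx j))) ab.1 ab.2)))
  let r : ℕ → ℕ := fun j => if j < es 0 then 0 else (W (idx j)).1 * (W (idx j)).1
  have hR : ∀ n, R n ≤ D K n := by
    intro n
    simp only [R]
    split_ifs with h
    · exact bot_le
    · rw [Submodule.span_le]
      rintro _ ⟨ab, rfl⟩
      exact comp_mem n _
  have hRr : ∀ n, finrank K (R n) ≤ r n := by
    intro n
    by_cases h : n < es 0
    · have h1 : R n = ⊥ := if_pos h
      rw [h1]
      have h0 : finrank K (⊥ : Submodule K (T K)) = 0 := finrank_bot K (T K)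
      omega
    · have hRn : R n = Submodule.span K (Set.range
          (fun ab : Fin (W (idx n)).1 × Fin (W (idx n)).1 =>
            comp n (((W (idx n)).2.1 ^ (es (idx n))) ab.1 ab.2))) := if_neg h
      have hrn : r n = (W (idx n)).1 * (W (idx n)).1 := if_neg h
      rw [hRn, hrn]
      have h1 := finrank_range_le_card (R := K)
        (fun ab : Fin (W (idx n)).1 × Fin (W (idx n)).1 =>
          comp n (((W (idx n)).2.1 ^ (es (idx n))) ab.1 ab.2))
      rw [Fintype.card_prod, Fintype.card_fin] at h1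
      exact h1
  have hrt : ∀ j, (r j : ℝ) * (3/4) ^ j ≤ (1/16) * (7/8) ^ j := by
    intro j
    by_cases h : j < es 0
    · have h1 : r j = 0 := if_pos h
      rw [h1]
      simp only [Nat.cast_zero, zero_mul]
      positivity
    · have h1 : r j = (W (idx j)).1 * (W (idx j)).1 := if_neg h
      rw [h1]
      have h2 := hst (W (idx j)).1 j (le_trans (es_st _) (hblock j (by omega)))
      have h3 : ((3:ℝ)/4) ^ j = (6/7) ^ j * (7/8) ^ j := by
        rw [← mul_pow]; norm_num
      rw [h3, ← mul_assoc]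
      exact mul_le_mul_of_nonneg_right h2 (by positivity)
  have hsum : ∀ n, 1 + ∑ i ∈ Finset.range n, (r (i + 1) : ℝ) * (3/4) ^ (i + 1) ≤ 2 * (3/4) := by
    intro n
    have h1 : ∑ i ∈ Finset.range n, (r (i + 1) : ℝ) * (3/4) ^ (i + 1)
        ≤ ∑ i ∈ Finset.range n, (1/16) * ((7:ℝ)/8) ^ (i + 1) :=
      Finset.sum_le_sum fun i _ => hrt (i + 1)
    have h2 : ∀ n : ℕ, ∑ i ∈ Finset.range n, (1/16) * ((7:ℝ)/8) ^ (i + 1)
        = 7/16 * (1 - (7/8) ^ n) := by
      intro n
      induction n with
      | zero => simp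
      | succ n ih =>
        rw [Finset.sum_range_succ, ih]
        ring
    have h3 : (0:ℝ) < (7/8) ^ n := by positivity
    rw [h2] at h1
    linarith
  have hlt := Jd_lt' (K := K) (D := D K) (R := R) finrank_D D_mul D_zero hR r hRr (3/4)
    (by norm_num) hsum
  refine ⟨It R, inferInstance, infinite_quot R hR hlt, ?_, ?_⟩
  · intro f hf
    have h1 := comp_mem_Jd R hR f hf 0
    have h2 : Jd (D K) R 0 = ⊥ := rfl
    rw [h2, Submodule.mem_bot] at h1
    have h3 := comp_coeff 0 f 1
    rw [h1] at h3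
    simpa using h3.symm
  · have hall : ∀ x : X, ∃ e : ℕ, ∀ a b, (x.2.1 ^ e) a b ∈ It R := by
      intro x
      obtain ⟨k, rfl⟩ := hW x
      refine ⟨es k, fun a b => ?_⟩
      rw [mem_It]
      have hge : ((W k).2.1 ^ (es k)) a b ∈ Ge K (es k) := matrix_pow_Ge (W k).2.1 (W k).2.2 _ a b
      rw [sum_comp (((W k).2.1 ^ (es k)) a b) (es (k+1)) (by
        intro w hw
        have h1 := lt_md _ a b w hw
        rw [es1]
        exact lt_of_lt_of_le h1 (le_trans (le_max_left _ _) (le_max_right _ _)))]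
      apply Submodule.sum_mem
      intro j hj
      rw [Finset.mem_range] at hj
      rcases Nat.lt_or_ge j (es k) with h | h
      · rw [comp_eq_zero_of_Ge hge h]; exact Submodule.zero_mem _
      · have h1 := hidx k j h hj
        have h0 : es 0 ≤ j := (es_mono.monotone (Nat.zero_le k)).trans h
        have hpos : 1 ≤ es 0 := by rw [es0]; omega
        have h3 : comp j (((W k).2.1 ^ (es k)) a b) ∈ R j := by
          have hRj : R j = Submodule.span K (Set.range
              (fun ab : Fin (W (idx j)).1 × Fin (W (idx j)).1 =>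
                comp j (((W (idx j)).2.1 ^ (es (idx j))) ab.1 ab.2))) :=
            if_neg (by omega)
          rw [hRj]
          subst h1
          exact Submodule.subset_span ⟨(a, b), rfl⟩
        obtain ⟨j', rfl⟩ : ∃ j', j = j' + 1 := ⟨j - 1, by omega⟩
        exact (le_iSup (Jd (D K) R) (j'+1)) (R_le D_zero j' h3)
    intro m M hM
    exact hall ⟨m, M, hM⟩

end Core

end Pool.Agent.X279.GolodAll
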